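import Mathlib
import Pool.Agent.N612.WC.Main
import Pool.Agent.N612.WC.Booth

set_option autoImplicit false

/-!
MP_6b4821_lc, Q1: the answer is negative. Under `ω₁ < 𝔭`, in particular under Martin's axiom with
the negation of the continuum hypothesis, every dense countably compact subgroup of a compact
abelian group of weight at most `ω₁` is projectively `w`-compact; there are non-metrizable such
groups, for example `(ℤ/2)^{ω₁}`.
-/

open Cardinal Topology TopologicalSpace

namespace Pool.Agent.Results.MP_6b4821_lc.UnderMartin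

/-- `ω₁ < 𝔭`: whenever `F` is a family of subsets of `ℕ`, indexed by a set of size at most `ℵ₁`,
all of whose finite intersections are infinite, there is an infinite `A ⊆ ℕ` with `A \ F i` finite
for every `i`. -/
def OmegaOneLtP : Prop :=
  ∀ (I : Type) (F : I → Set ℕ), #I ≤ ℵ₁ → (∀ s : Finset I, (⋂ i ∈ s, F i).Infinite) →
    ∃ A : Set ℕ, A.Infinite ∧ ∀ i, (A \ F i).Finite

/-- Martin's axiom: for every nonempty partial order `P` in which every set of pairwise
incompatible elements is countable, and every family of fewer than `𝔠` dense subsets of `P`, there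
is a filter in `P` which meets all of them. -/
def MartinAxiom : Prop :=
  ∀ (P : Type) [PartialOrder P] [Nonempty P],
    (∀ A : Set P, (∀ a ∈ A, ∀ b ∈ A, a ≠ b → ¬ ∃ c : P, c ≤ a ∧ c ≤ b) → A.Countable) →
      ∀ (ι : Type) (D : ι → Set P), #ι < 𝔠 → (∀ i, ∀ p : P, ∃ q ∈ D i, q ≤ p) →
        ∃ G : Set P, G.Nonempty ∧ (∀ a ∈ G, ∀ b : P, a ≤ b → b ∈ G) ∧
          (∀ a ∈ G, ∀ b ∈ G, ∃ c ∈ G, c ≤ a ∧ c ≤ b) ∧ ∀ i, (D i ∩ G).Nonempty

/-- Every countable open cover of `D` has a finite subcover. -/
def CountablyCompact {X : Type} [TopologicalSpace X] (D : Set X) : Prop :=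
  ∀ U : ℕ → Set X, (∀ n, IsOpen (U n)) → D ⊆ ⋃ n, U n → ∃ t : Finset ℕ, D ⊆ ⋃ n ∈ t, U n

/-- The weight of `X`: the least cardinality of a base. -/
noncomputable def weight (X : Type) [TopologicalSpace X] : Cardinal.{0} :=
  sInf {κ | ∃ B : Set (Set X), IsTopologicalBasis B ∧ #B = κ}

/-- Some compact subset has the weight of the whole space. -/
def WCompact (X : Type) [TopologicalSpace X] : Prop :=
  ∃ C : Set X, IsCompact C ∧ weight C = weight X

/-- Every Hausdorff topological group which is the image of `H` under a continuous surjective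
homomorphism is `w`-compact. -/
def ProjectivelyWCompact (H : Type) [AddGroup H] [TopologicalSpace H] : Prop :=
  ∀ (K : Type) [AddGroup K] [TopologicalSpace K] [IsTopologicalAddGroup K] [T2Space K]
    (f : H →+ K), Continuous f → Function.Surjective f → WCompact K

/-- Every dense countably compact subgroup of `G` is projectively `w`-compact. -/
def AllProjectivelyWCompact (G : Type) [AddCommGroup G] [TopologicalSpace G] : Prop :=
  ∀ D : AddSubgroup G, Dense (D : Set G) → CountablyCompact (D : Set G) → ProjectivelyWCompact D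

/-- The statement of Q1. -/
def StatementOfQ1 : Prop :=
  ∀ (G : Type) [AddCommGroup G] [TopologicalSpace G] [IsTopologicalAddGroup G] [CompactSpace G]
    [T2Space G], AllProjectivelyWCompact G → MetrizableSpace G

theorem all_of_weight (hp : OmegaOneLtP) {G : Type} [AddCommGroup G] [TopologicalSpace G]
    [IsTopologicalAddGroup G] [CompactSpace G] [T2Space G] (hw : weight G ≤ ℵ₁) :
    AllProjectivelyWCompact G := by
  intro D hd hc K _ _ _ _ f hf hs
  exact Pool.Agent.N612.WC.main hp hw D hd
    (isCountablyCompact_iff_countable_open_cover.2 hc) f hf hs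

/-- **Main theorem.**

1. Martin's axiom and the negation of the continuum hypothesis imply `ω₁ < 𝔭`.
2. If `ω₁ < 𝔭` then every dense countably compact subgroup of every compact abelian group of weight
at most `ω₁` is projectively `w`-compact.
3. In particular, if `ω₁ < 𝔭` then the compact non-metrizable group `(ℤ/2)^{ω₁}` has this property,
and the statement of Q1 is false. -/
theorem result :
    (MartinAxiom → (ℵ₁ : Cardinal.{0}) < 𝔠 → OmegaOneLtP) ∧
    (OmegaOneLtP →
      (∀ (G : Type) [AddCommGroup G] [TopologicalSpace G] [IsTopologicalAddGroup G]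
        [CompactSpace G] [T2Space G], weight G ≤ ℵ₁ → AllProjectivelyWCompact G) ∧
      (∀ ι : Type, #ι = ℵ₁ →
        AllProjectivelyWCompact (ι → ZMod 2) ∧ ¬ MetrizableSpace (ι → ZMod 2)) ∧
      ¬ StatementOfQ1) := by
  refine ⟨Pool.Agent.N612.WC.booth, fun hp => ?_⟩
  have h1 : ∀ (G : Type) [AddCommGroup G] [TopologicalSpace G] [IsTopologicalAddGroup G]
      [CompactSpace G] [T2Space G], weight G ≤ ℵ₁ → AllProjectivelyWCompact G := by
    intro G _ _ _ _ _ hw
    exact all_of_weight hp hw
  have h2 : ∀ ι : Type, #ι = ℵ₁ →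
      AllProjectivelyWCompact (ι → ZMod 2) ∧ ¬ MetrizableSpace (ι → ZMod 2) := by
    intro ι hι
    exact ⟨h1 _ (Pool.Agent.N612.WC.weight_pi ι hι), Pool.Agent.N612.WC.not_metrizable ι hι⟩
  refine ⟨h1, h2, fun hQ => ?_⟩
  obtain ⟨ι, hι⟩ : ∃ ι : Type, #ι = ℵ₁ := ⟨_, Cardinal.mk_out _⟩
  exact (h2 ι hι).2 (hQ _ (h2 ι hι).1)

end Pool.Agent.Results.MP_6b4821_lc.UnderMartin
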